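import Pool.Agent.H83.SK.PST.Final
import Pool.Agent.H83.SK.P57.Main
import Pool.Agent.H83.SK.PHP.Bad
import Pool.Agent.H83.SK.P29.QM

/-!
# Site percolation: quasi-multiplicativity and gluing on the torus
-/

set_option autoImplicit false

open MeasureTheory ProbabilityTheory unitInterval

namespace Pool.Agent.H83.SK

theorem glt_holds : GLT := glt badIn badOut

theorem sepTorus_holds : SepTorus := Pool.Agent.H83.PST.sepTorus badIn

theorem regA4_holds : RegA4 := Pool.Agent.H38.N59.regA4 badIn

theorem qMann_holds : QMann := qmann badIn glt_holds regA4_holds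

theorem glTorus_holds : GLTorus := glTorus badIn glt_holds regA4_holds sepTorus_holds

end Pool.Agent.H83.SK
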