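import Pool.Agent.H92.SN.TSym
import Pool.Agent.H83.SK.Iface
import Pool.Agent.H29.Sep.A4Low
import Pool.Agent.H83.SK.P29.A4Low

/-!
# Lower bounds for the influence of a site of the torus; small tori
-/

set_option autoImplicit false

open MeasureTheory ProbabilityTheory unitInterval

namespace Pool.Agent.H83.PST

open Pool.Agent.H89.Perc
open Pool.Agent.H61.NC (modE ctr mid)
open Pool.Agent.H83.SK (sv sit sit_true RSWreg sT sitT)
open Pool.Agent.H92.SN (WindS tSites mem_tSites localOn_WindS incr_WindS pivot_windS cE)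

theorem windS_eq (N : ℕ) : {ω | sitT N ω ∈ Wind N} = WindS N := by
  ext ω
  constructor
  · rintro ⟨u, a, b, ha, hc⟩
    rw [Pool.Agent.H83.SK.per_sitT] at hc
    exact ⟨u, a, b, ha, hc⟩
  · rintro ⟨u, a, b, ha, hc⟩
    refine ⟨u, a, b, ha, ?_⟩
    rw [Pool.Agent.H83.SK.per_sitT]
    exact hc

theorem sT_eq (q : I) (N : ℕ) : sT q N = Pool.Agent.H92.SN.sT q N := by
  unfold Pool.Agent.H83.SK.sT
  rw [windS_eq]
  rfl

theorem sT_nonneg (q : I) (N : ℕ) : 0 ≤ sT q N := by
  rw [sT_eq]
  exact Pool.Agent.H92.SN.sT_nonneg q N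

theorem zero_mem {N : ℕ} (hN : 1 ≤ N) : sv 0 ∈ tSites N := by
  rw [mem_tSites]
  simp only [sv, Prod.fst_zero, Prod.snd_zero, and_true]
  omega

theorem sT_pivot {N : ℕ} (hN : 1 ≤ N) (q : I) : sT q N = pivot q (WindS N) (sv 0) := by
  rw [sT_eq]
  exact (pivot_windS hN q (zero_mem hN)).symm

theorem le_sT {N : ℕ} (hN : 1 ≤ N) {q : I} {E : Set Config}
    (hE : ∀ ω ∈ E, Function.update ω (sv 0) true ∈ WindS N ∧
      Function.update ω (sv 0) false ∉ WindS N) : Pr q E ≤ sT q N := by
  rw [sT_pivot hN]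
  have hl : ∀ b : Bool, LocalOn (tSites N) {ω | Function.update ω (sv 0) b ∈ WindS N} := by
    intro b ω ω' hω h2
    refine localOn_WindS hN _ _ (fun f hf => ?_) h2
    by_cases hfe : f = sv 0
    · subst hfe; simp
    · simp only [Function.update_of_ne hfe]; exact hω f hf
  have hsub : {ω | Function.update ω (sv 0) false ∈ WindS N} ⊆
      {ω | Function.update ω (sv 0) true ∈ WindS N} := by
    intro ω hω
    refine incr_WindS N _ _ ?_ hω
    intro e he
    by_cases h : e = sv 0
    · subst h; simp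
    · rw [Function.update_of_ne h] at he ⊢
      exact he
  have h2 : Pr q ({ω | Function.update ω (sv 0) true ∈ WindS N} \
      {ω | Function.update ω (sv 0) false ∈ WindS N}) = pivot q (WindS N) (sv 0) :=
    measureReal_sdiff hsub (hl false).measurableSet
  rw [← h2]
  exact Pr_mono fun ω hω => ⟨(hE ω hω).1, (hE ω hω).2⟩

/-! ### Small tori -/

/-- The explicit configuration of the sites: a row without the site `0`. -/
private def smB : Config := fun e => decide (e.2.1 = 0 ∧ e.1 ≠ 0)

private theorem div_eq {N x : ℤ} (hN : 0 < N) (h : (x + 1) % N ≠ 0) : x / N = (x + 1) / N := by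
  have h1 := Int.emod_add_mul_ediv (x + 1) N
  have h2 := Int.emod_nonneg (x + 1) hN.ne'
  have h3 := Int.emod_lt_of_pos (x + 1) hN
  exact ((Int.ediv_emod_unique (r := (x + 1) % N - 1) hN).2
    ⟨by linarith, by omega, by omega⟩).1

private theorem smB_step {N : ℕ} (hN : 1 ≤ N) {e : Edge} (he : sit (per N smB) e = true) :
    (src e).1 / (N : ℤ) = (tgt e).1 / (N : ℤ) := by
  have hN0 : (0 : ℤ) < N := by omega
  rw [sit_true] at he
  obtain ⟨x, y, t⟩ := e
  cases t
  · have h2 := he.2
    simp only [sv, tgt, per, smB, Bool.false_eq_true, if_false, decide_eq_true_eq] at h2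
    simp only [src, tgt, Bool.false_eq_true, if_false]
    exact div_eq hN0 h2.2
  · simp only [src, tgt, if_true]

private theorem smB_not {N : ℕ} (hN : 1 ≤ N) : smB ∉ WindS N := by
  rintro ⟨u, a, b, ha, hc⟩
  have hN' : (N : ℤ) ≠ 0 := by omega
  have key : ∀ v, Conn (sit (per N smB)) Set.univ u v → u.1 / (N : ℤ) = v.1 / (N : ℤ) := by
    intro v hv
    refine hv.induction_right (P := fun v => u.1 / (N : ℤ) = v.1 / (N : ℤ)) rfl ?_
    rintro x y _ ⟨-, -, e, hj, ho⟩ ih
    rw [ih]
    have := smB_step hN ho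
    rcases hj with ⟨h1, h2⟩ | ⟨h1, h2⟩
    · rw [h1, h2]
      exact this
    · rw [h1, h2]
      exact this.symm
  have h1 := key _ hc
  simp only [Int.add_mul_ediv_right _ _ hN'] at h1
  omega

private theorem smB_wind {N : ℕ} (hN : 1 ≤ N) : Function.update smB (sv 0) true ∈ WindS N := by
  obtain ⟨ω, hω⟩ : ∃ ω : Config, ω = Function.update smB (sv 0) true := ⟨_, rfl⟩
  rw [← hω]
  have hN0 : (0 : ℤ) < N := by omega
  have hopen : ∀ j : ℕ, per N ω (sv ((j : ℤ), (0 : ℤ))) = true := by
    intro j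
    have h1 : per N ω (sv ((j : ℤ), (0 : ℤ))) = ω ((j : ℤ) % N, 0, false) := by
      simp [per, sv]
    rw [h1, hω, Function.update_apply]
    split_ifs with h
    · rfl
    · simp only [smB, decide_eq_true_eq, true_and]
      intro h2
      refine h ?_
      rw [h2]
      rfl
  have key : ∀ j : ℕ, Conn (sit (per N ω)) Set.univ ((0 : ℤ), (0 : ℤ)) ((j : ℤ), (0 : ℤ)) := by
    intro j
    induction j with
    | zero => exact Conn.refl trivial
    | succ j ih =>
      refine ih.tail ⟨trivial, trivial, ((j : ℤ), 0, false), Or.inl ⟨rfl, ?_⟩, ?_⟩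
      · simp [tgt]
      · rw [sit_true]
        refine ⟨hopen j, ?_⟩
        have := hopen (j + 1)
        push_cast at this
        simpa [tgt] using this
  refine ⟨(0, 0), 1, 0, one_ne_zero, ?_⟩
  have e1 : ((((0 : ℤ), (0 : ℤ)) : Vert).1 + 1 * (N : ℤ), (((0 : ℤ), (0 : ℤ)) : Vert).2 +
      0 * (N : ℤ)) = ((N : ℤ), (0 : ℤ)) := by
    simp
  rw [e1]
  exact key N

private theorem smB_closed : Function.update smB (sv 0) false = smB := by
  refine Function.update_eq_self_iff.2 ?_
  simp [smB, sv]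

private theorem pivot_ge {N : ℕ} (hN : 1 ≤ N) (q : I) {t : ℝ} (ht : 0 ≤ t)
    (h1 : t ≤ (q : ℝ)) (h2 : (q : ℝ) ≤ 1 - t) :
    t ^ (tSites N).card ≤ pivot q (WindS N) (sv 0) := by
  have hloc : LocalOn (tSites N) {ω : Config | ∀ e ∈ tSites N, ω e = smB e} := by
    intro ω ω' h hω e he
    rw [← h e he]
    exact hω e he
  have hE := Pool.Agent.H29.Sep.a4Low_cyl q ht h1 h2 smB (tSites N)
  have hup : ∀ (ω : Config) (b : Bool), (∀ e ∈ tSites N, ω e = smB e) → ∀ e ∈ tSites N,
      Function.update ω (sv 0) b e = Function.update smB (sv 0) b e := by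
    intro ω b h e he
    rw [Function.update_apply, Function.update_apply]
    split_ifs
    · rfl
    · exact h e he
  have hW := localOn_WindS (N := N) hN
  have hsub1 : {ω : Config | Function.update ω (sv 0) false ∈ WindS N} ∪
      {ω : Config | ∀ e ∈ tSites N, ω e = smB e} ⊆
      {ω | Function.update ω (sv 0) true ∈ WindS N} := by
    rintro ω (h | h)
    · refine incr_WindS N _ _ (fun e he => ?_) h
      rw [Function.update_apply] at he ⊢
      split_ifs at he ⊢
      exact he
    · exact hW _ _ (fun e he => (hup ω true h e he).symm) (smB_wind hN)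
  have hdisj : Disjoint {ω : Config | Function.update ω (sv 0) false ∈ WindS N}
      {ω : Config | ∀ e ∈ tSites N, ω e = smB e} := by
    rw [Set.disjoint_left]
    intro ω h h'
    have := hW _ _ (fun e he => hup ω false h' e he) h
    rw [smB_closed] at this
    exact smB_not hN this
  have h3 : Pr q ({ω : Config | Function.update ω (sv 0) false ∈ WindS N} ∪
      {ω : Config | ∀ e ∈ tSites N, ω e = smB e}) =
      Pr q {ω : Config | Function.update ω (sv 0) false ∈ WindS N} +
        Pr q {ω : Config | ∀ e ∈ tSites N, ω e = smB e} :=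
    measureReal_union hdisj hloc.measurableSet
  have h4 := Pr_mono (p := q) hsub1
  rw [h3] at h4
  unfold pivot
  linarith

/-- Small tori: finite energy. -/
theorem sT_small (c : ℝ) (hc : 0 < c) (N₀ : ℕ) : ∃ c' : ℝ, 0 < c' ∧ ∀ (N : ℕ) (q : I),
    1 ≤ N → N ≤ N₀ → RSWreg c N q → c' ≤ sT q N := by
  refine ⟨(min (c / 16) 1) ^ (N₀ * N₀), by positivity, ?_⟩
  intro N q hN hN0 hreg
  obtain ⟨h1, h2⟩ := Pool.Agent.H83.SK.rswreg_density hN hreg
  set t : ℝ := min (c / 16) 1 with ht
  have ht0 : 0 < t := by positivity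
  have ht1 : t ≤ 1 := min_le_right _ _
  have ht2 : t ≤ c / 16 := min_le_left _ _
  have hcard : (tSites N).card ≤ N₀ * N₀ := by
    have : (tSites N).card = N * N := by
      simp [tSites]
    rw [this]
    exact Nat.mul_le_mul hN0 hN0
  have h3 := pivot_ge hN q ht0.le (ht2.trans h1) (by linarith)
  have h4 : t ^ (N₀ * N₀) ≤ t ^ (tSites N).card := pow_le_pow_of_le_one ht0.le ht1 hcard
  rw [sT_pivot hN]
  exact h4.trans h3

end Pool.Agent.H83.PST
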