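import Pool.Agent.H83.SK.PST.Defs

/-!
# With the source closed there is no winding path
-/

set_option autoImplicit false

open MeasureTheory ProbabilityTheory unitInterval

namespace Pool.Agent.H83.PST

open Pool.Agent.H89.Perc
open Pool.Agent.H61.NC (modE)
open Pool.Agent.H83.SK (sv sit sit_true RSWreg)
open Pool.Agent.H59.EX (LocS inE touch clus closeS Side T Mouth Fence dom pb grid)
open Pool.Agent.H38.N59 (vE rv fillS Src Sep FX FY det Seal Four sv_mem_vE sit_joins)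
open Pool.Agent.H26.ST (Cor glu PerInv sh TD Rel1 In joins_sh mulN mem_Cor in_sh in_sh0 conn_sh
  perInv_per)
open Pool.Agent.H92.SN (WindS tSites)

variable {N k : ℕ} {w η : Config} {X Y : Set Vert} {a b : Vert} {i j : ℤ × ℤ}

/-- The data of the deterministic argument. -/
structure TS (N k : ℕ) (w : Config) (X Y : Set Vert) : Prop where
  td : TD N k (sit w) X Y
  pw : PerInv N w
  cX : ∀ a ∈ X, ∀ b ∈ dom .W .E k, ∀ e, Joins e a b → w (sv b) = true → b ∈ X
  cY : ∀ a ∈ Y, ∀ b ∈ dom .W .E k, ∀ e, Joins e a b → w (sv b) = true → b ∈ Y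

/-- Open determined sites belong to a sausage. -/
theorem TS.det (h : TS N k w X Y) (hb : w (sv b) = true)
    (ht : sv b ∈ Pool.Agent.H38.N59.det (modE N) .W .E k (CC N k) (X ∪ Y)) :
    ∃ i, In N k X Y i b := by
  obtain ⟨e', he', hm⟩ := ht
  have hz : ∃ z : ℤ × ℤ, e' = sv (sh N z b) := by
    obtain ⟨x, y⟩ := b
    obtain ⟨x', y', t'⟩ := e'
    simp only [sv, modE, Prod.mk.injEq] at hm
    obtain ⟨h1, h2, h3⟩ := hm
    obtain ⟨m1, hm1⟩ : (N : ℤ) ∣ x - x' := Int.ModEq.dvd (Int.ModEq.symm h1)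
    obtain ⟨m2, hm2⟩ : (N : ℤ) ∣ y - y' := Int.ModEq.dvd (Int.ModEq.symm h2)
    refine ⟨(m1, m2), ?_⟩
    simp only [sv, sh, Prod.mk.injEq]
    refine ⟨?_, ?_, h3.symm⟩
    · rw [mul_comm] at hm1; omega
    · rw [mul_comm] at hm2; omega
  obtain ⟨z, rfl⟩ := hz
  have hb' : w (sv (sh N z b)) = true := by rw [per_sv_sh h.pw]; exact hb
  have hX : sh N z b ∈ X → ∃ i, In N k X Y i b := by
    intro h1
    refine ⟨(z.1 - 1, z.2), Or.inr (Or.inr ?_)⟩
    simpa using h1
  have hY : sh N z b ∈ Y → ∃ i, In N k X Y i b := fun h1 => ⟨z, Or.inl h1⟩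
  rcases he' with he' | he'
  · obtain ⟨a', e, hj, ha', hbD, hS⟩ := Pool.Agent.H38.N59.of_mem_rv he'
    rcases hS with (hS | hS) | (hS | hS)
    · exact hX (h.cX a' hS _ hbD e hj hb')
    · exact hY (h.cY a' hS _ hbD e hj hb')
    · exact hX hS
    · exact hY hS
  · rw [sv_mem_vE] at he'
    rcases he' with he' | he'
    · exact ⟨z, Or.inr (Or.inl he'.1)⟩
    · exact hX (h.td.TX he')

/-- The cluster of a sausage does not reach other sausages. -/
theorem TS.confine (h : TS N k w X Y) {ρ K : ℕ} (hρ : 1 ≤ ρ) (hρk : 8 * ρ ≤ k) (hK : N ≤ K * ρ)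
    (hle : ∀ e, w e = true → η e = true)
    (hseal : η ∈ Seal (grid ρ K) ρ (Pool.Agent.H38.N59.det (modE N) .W .E k (CC N k) (X ∪ Y)))
    {x z : Vert} (hx : In N k X Y (0, 0) x) (hc : Conn (sit w) Set.univ x z)
    (hz : In N k X Y j z) : j = (0, 0) := by
  have hk := h.td.hk
  have hN : (128 * k : ℤ) ≤ N := by exact_mod_cast h.td.hN
  have hρk' : (8 * ρ : ℤ) ≤ k := by exact_mod_cast hρk
  by_contra hj
  have key := Pool.Agent.H38.N59.seal_confine (η := w) (w := η) (W := Set.univ)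
    (S := {v | In N k X Y (0, 0) v})
    (F := {v | ∃ j : ℤ × ℤ, j ≠ (0, 0) ∧ In N k X Y j v})
    (Ex := {a | 28 * (k : ℤ) ≤ a.1 ∧ a.1 ≤ N - 28 * k ∧ -(4 * k : ℤ) ≤ a.2 ∧ a.2 ≤ 4 * k})
    (t := Pool.Agent.H38.N59.det (modE N) .W .E k (CC N k) (X ∪ Y)) (G := grid ρ K) (ρ := ρ)
    (fun e _ => hle _) hseal ?_ ?_ ?_ ?_ (x := x) (z := z) hx hc
  · rcases key with h1 | ⟨h1, -⟩
    · exact hj (h.td.sep hz h1 (Or.inl rfl))
    · exact h1 ⟨j, hj, hz⟩
  · rintro a ⟨h1, h2, h3, h4⟩ b hab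
    have hK' : (N : ℤ) ≤ ((K * ρ : ℕ) : ℤ) := by exact_mod_cast hK
    refine Pool.Agent.H59.EX.exists_grid hρ ?_
    rw [mem_ball] at hab
    rw [mem_ball, Prod.fst_zero, Prod.snd_zero]
    push_cast at hab
    omega
  · intro a b e he ho ho' _ _ ha hb
    have hoe : sit w e = true := (sit_joins he).2 ⟨ho, ho'⟩
    refine ⟨h.td.exit ha hb he hoe, ?_, ?_⟩
    · rintro ⟨j', hj', hb'⟩
      exact hj' (h.td.sep hb' ha (Or.inr ⟨e, he.symm, hoe⟩))
    · intro ht
      obtain ⟨i, hi⟩ := h.det ho' ht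
      have h1 := h.td.sep ha hi (Or.inr ⟨e, he, hoe⟩)
      subst h1
      exact hb hi
  · rintro a b e he ho ho' - - ha ha' ⟨j', hj', hb⟩ x ⟨h1, h2, h3, h4⟩ hbx
    have hoe : sit w e = true := (sit_joins he).2 ⟨ho, ho'⟩
    have ha2 : ¬ In N k X Y (0, 0) (sh N j' a) := by
      rw [in_sh0]
      exact fun h5 => ha' ⟨j', hj', h5⟩
    have hb2 : In N k X Y (0, 0) (sh N j' b) := in_sh0.2 hb
    have h5 := h.td.exit hb2 ha2 (joins_sh j' he.symm)
      (by rw [Pool.Agent.H26.ST.per_sh h.td.per]; exact hoe)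
    have e1 := mulN N j'.1
    have e2 := mulN N j'.2
    obtain ⟨j1, j2⟩ := j'
    have hj3 : j1 ≠ 0 ∨ j2 ≠ 0 := by
      by_contra hcon
      push Not at hcon
      exact hj' (by rw [hcon.1, hcon.2])
    simp only [sh] at h5
    rw [mem_ball] at hbx
    push_cast at hbx
    simp only at e1 e2
    omega
  · intro a b e he ho ho' _ _ ha ha' hb hb' ht
    obtain ⟨i, hi⟩ := h.det ho' ht
    by_cases h0 : i = (0, 0)
    · subst h0
      exact hb hi
    · exact hb' ⟨i, h0, hi⟩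

/-- No winding path. -/
theorem TS.not_wind (h : TS N k w X Y) {ρ K : ℕ} (hρ : 1 ≤ ρ) (hρk : 8 * ρ ≤ k) (hK : N ≤ K * ρ)
    (hle : ∀ e, w e = true → η e = true)
    (hH : η ∈ HT N k ρ K (X ∪ Y)) {u : Vert} {p q : ℤ} (hp : p ≠ 0) :
    ¬ Conn (sit w) Set.univ u (u.1 + p * N, u.2 + q * N) := by
  intro hc
  have hk := h.td.hk
  have hN : (128 * k : ℤ) ≤ N := by exact_mod_cast h.td.hN
  have hsh : ∀ w : Vert, sh N (-p, -q) w = (w.1 + p * N, w.2 + q * N) := by
    intro w
    simp only [sh, Prod.mk.injEq]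
    constructor <;> ring
  by_cases hU : ∃ v, Conn (sit w) Set.univ u v ∧ ∃ i, In N k X Y i v
  · obtain ⟨v, hv, i, hi⟩ := hU
    have h1 : Conn (sit w) Set.univ (sh N (-p, -q) u) (sh N (-p, -q) v) :=
      conn_sh h.td.per (-p, -q) (T := Set.univ) (fun _ _ => trivial) hv
    rw [hsh] at h1
    have h2 : Conn (sit w) Set.univ v (sh N (-p, -q) v) := (hv.symm.trans hc).trans h1
    have h3 := conn_sh h.td.per i (T := Set.univ) (fun _ _ => trivial) h2
    have h4 : In N k X Y (p, q) (sh N i (sh N (-p, -q) v)) := by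
      rw [in_sh, in_sh]
      have e : (p + i.1 + (-p, -q).1, q + i.2 + (-p, -q).2) = i :=
        Prod.ext (by simp only; ring) (by simp only; ring)
      simp only at e ⊢
      rw [e]
      exact hi
    have h5 := h.confine hρ hρk hK hle hH.1 (in_sh0.2 hi) h3 h4
    rw [Prod.mk.injEq] at h5
    exact hp h5.1
  · push Not at hU
    have h1 : Conn (sit w) {v | ∀ i, ¬ In N k X Y i v} u (u.1 + p * N, u.2 + q * N) := by
      refine hc.induction_right (P := fun v => Conn (sit w) {v | ∀ i, ¬ In N k X Y i v} u v)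
        (Conn.refl (hU u (Conn.refl trivial))) ?_
      intro v v' hv hs ih
      exact ih.tail ⟨ih.mem_right, hU v' (hv.tail hs), hs.2.2⟩
    have hinv : ∀ (j : ℤ × ℤ), ∀ v ∈ {v | ∀ i, ¬ In N k X Y i v},
        sh N j v ∈ {v | ∀ i, ¬ In N k X Y i v} := by
      intro j v hv i hi
      rw [in_sh] at hi
      exact hv _ hi
    have h2 := conn_sh h.td.per (-p, -q) (hinv _) h1
    have h3 := h1.trans (by rw [← hsh u] at h2 ⊢; exact h2)
    have hX : ¬ HCross (sit w) (40 * k) (50 * k) (3 * k + 1) (N - 3 * k - 1) := by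
      rintro ⟨a, b, h4, h5, h6⟩
      exact hH.2 ⟨a, b, h4, h5, h6.mono le_rfl (Pool.Agent.H83.SK.sit_mono hle)⟩
    have e1 := mulN N p
    rcases lt_or_gt_of_ne hp with h0 | h0
    · refine hX (h.td.strip h3.symm ?_)
      simp only [sh]
      have e2 : -p * (N : ℤ) = -(p * N) := by ring
      rw [e2]
      omega
    · refine hX (h.td.strip h3 ?_)
      simp only [sh]
      have e2 : -p * (N : ℤ) = -(p * N) := by ring
      rw [e2]
      omega

/-- With the site `0` closed. -/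
theorem zeta_cut {N : ℕ} {s : Src} (hs : IsSrc s) {ω : Config} {v : Vert}
    (h : per N (Function.update ω (sv 0) false) (sv v) = true) :
    s.cut (per N ω) (sv v) = true := by
  have h2 : per N (Function.update ω (sv 0) false) (sv v) =
      Function.update ω (sv 0) false (modE N (sv v)) := rfl
  have hne : modE N (sv v) ≠ sv 0 := by
    intro h1
    rw [h2, h1, Function.update_self] at h
    exact absurd h (by simp)
  have h3 : per N ω (sv v) = true := by
    rw [h2, Function.update_of_ne hne] at h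
    exact h
  rw [Pool.Agent.H38.N59.cut_sv]
  refine ⟨h3, ?_⟩
  rw [hs.V]
  intro h4
  rw [Finset.mem_singleton] at h4
  refine hne ?_
  rw [h4]
  simp [modE, sv]

theorem zeta_sit {N : ℕ} {s : Src} (hs : IsSrc s) {ω : Config} {e : Edge}
    (h : sit (per N (Function.update ω (sv 0) false)) e = true) :
    sit (s.cut (per N ω)) e = true := by
  rw [sit_true] at h ⊢
  exact ⟨zeta_cut hs h.1, zeta_cut hs h.2⟩

/-- A point of a mouth is not near the origin. -/
theorem open_x {d : Side} {k : ℕ} (hk : 1 ≤ k) {w : Config} {D : Set Vert} {x : Vert}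
    (hx : x ∈ ball 0 2) (h : Fence d k (sit w) D x) : w (sv x) = true := by
  rw [mem_ball, Prod.fst_zero, Prod.snd_zero] at hx
  push_cast at hx
  obtain ⟨u, hu, hc⟩ := Pool.Agent.H59.EX.fence_mem h
  refine Pool.Agent.H38.N59.open_of_conn hc ?_
  rintro rfl
  cases d <;> simp only [T, rect, Set.mem_ofPred_eq] at hu <;> omega

theorem ts_of_sep {s : Src} (hs : IsSrc s) (hk : 64 ≤ k) (hN : 128 * k ≤ N)
    {ω : Config} (h1 : per N ω ∈ Sep s .W .E k) :
    TS N k (per N (Function.update ω (sv 0) false)) (FX s .W .E k (per N ω))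
      (FY s .W .E k (per N ω)) := by
  obtain ⟨hx, hy, hxy, hmx, hmy⟩ := h1
  have hox : s.ful .W .E k (per N ω) (sv s.x) = true :=
    Pool.Agent.H38.N59.le_fillS (open_x (by omega) s.hx hx)
  have hoy : s.ful .W .E k (per N ω) (sv s.y) = true :=
    Pool.Agent.H38.N59.le_fillS (open_x (by omega) s.hy hy)
  have hcX : ∀ a ∈ FX s .W .E k (per N ω), ∀ b ∈ dom .W .E k, ∀ e, Joins e a b →
      per N (Function.update ω (sv 0) false) (sv b) = true → b ∈ FX s .W .E k (per N ω) := by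
    intro a ha b hb e he ho
    exact Pool.Agent.H38.N59.clus_adj ha (Pool.Agent.H38.N59.open_of_clus hox ha)
      (Pool.Agent.H38.N59.le_fillS (zeta_cut hs ho)) he hb
  have hcY : ∀ a ∈ FY s .W .E k (per N ω), ∀ b ∈ dom .W .E k, ∀ e, Joins e a b →
      per N (Function.update ω (sv 0) false) (sv b) = true → b ∈ FY s .W .E k (per N ω) := by
    intro a ha b hb e he ho
    exact Pool.Agent.H38.N59.clus_adj ha (Pool.Agent.H38.N59.open_of_clus hoy ha)
      (Pool.Agent.H38.N59.le_fillS (zeta_cut hs ho)) he hb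
  have hfill : ∀ (x : Vert) (Tt : Set Vert), Tt ⊆ T .W k ∪ T .E k →
      (∀ u ∈ Tt, ∀ v ∈ Tt, Conn allOpen Tt u v) →
      (∃ u ∈ Tt, Conn (sit (s.cut (per N ω))) (dom .W .E k) x u) →
      Tt ⊆ clus (sit (s.ful .W .E k (per N ω))) (dom .W .E k) {x} := by
    rintro x Tt hT hcon ⟨u, hu, hc⟩ v hv
    rw [Pool.Agent.H59.EX.mem_clus_single]
    refine (Pool.Agent.H38.N59.conn_mono le_rfl (fun e he => Pool.Agent.H38.N59.le_fillS he)
      hc).trans ?_
    exact Pool.Agent.H38.N59.conn_fillS (fun w hw => Or.inr hw) ((hcon u hu v hv).mono_set hT)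
  refine ⟨⟨hk, hN, perInv_sit (perInv_per _ _), Pool.Agent.H59.EX.clus_sub,
    Pool.Agent.H59.EX.clus_sub, ?_, ?_, ?_, ?_, ?_, ?_, ?_⟩, perInv_per _ _, hcX, hcY⟩
  · exact hfill s.x _ Set.subset_union_left
      (fun u hu v hv => conn_rect hu hv) (Pool.Agent.H59.EX.fence_mem hx)
  · exact hfill s.y _ Set.subset_union_right
      (fun u hu v hv => conn_rect hu hv) (Pool.Agent.H59.EX.fence_mem hy)
  · intro v hv hv'
    rw [Pool.Agent.H38.N59.mem_FX] at hv
    rw [Pool.Agent.H38.N59.mem_FY] at hv'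
    exact hxy (hv.trans hv'.symm)
  · intro a ha b hb e he ho
    exact hcX a ha b hb e he ((sit_joins he).1 ho).2
  · intro a ha b hb e he ho
    exact hcY a ha b hb e he ((sit_joins he).1 ho).2
  · intro v hv hv'
    exact hmx v hv' (Pool.Agent.H38.N59.mem_FX.1 hv)
  · intro v hv hv'
    exact hmy v hv' (Pool.Agent.H38.N59.mem_FY.1 hv)

theorem closed_not_wind {ρ K : ℕ} {s : Src} (hs : IsSrc s) (hk : 64 ≤ k)
    (hN : 128 * k ≤ N) (hρ : 1 ≤ ρ) (hρk : 8 * ρ ≤ k) (hK : N ≤ K * ρ) {ω : Config}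
    (h1 : per N ω ∈ Sep s .W .E k)
    (h3 : per N ω ∈ HT N k ρ K (FX s .W .E k (per N ω) ∪ FY s .W .E k (per N ω))) :
    Function.update ω (sv 0) false ∉ WindS N := by
  rintro ⟨u, p, q, hp, hc⟩
  refine (ts_of_sep hs hk hN h1).not_wind hρ hρk hK (fun e he => ?_) h3 hp hc
  have h2 : per N (Function.update ω (sv 0) false) e =
      Function.update ω (sv 0) false (modE N e) := rfl
  rw [h2, Function.update_apply] at he
  split_ifs at he
  exact he

end Pool.Agent.H83.PST
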