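import Pool.Agent.H26.ST.Closed
import Pool.Agent.H38.SK.N59.Corr
import Pool.Agent.H38.SK.N59.Seal
import Pool.Agent.H92.SN.TSym

/-!
# Site percolation on the torus: separated four arms, definitions

The torus of side `N` is `ℤ²` with the periodic configuration `per N ω = pb (modE N) ω` of sites. The
source is the closed site `0` with two of its neighbours; the first neighbour has its mouth in the
west, the second one in the east. The corridor is the horizontal strip `[28 k, N - 28 k] × [-3 k,
3 k]` from the east target to the translate by `(N, 0)` of the west target.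
-/

set_option autoImplicit false

open MeasureTheory ProbabilityTheory unitInterval

namespace Pool.Agent.H83.PST

open Pool.Agent.H89.Perc
open Pool.Agent.H61.NC (modE)
open Pool.Agent.H83.SK (sv sit sit_true RSWreg)
open Pool.Agent.H59.EX (LocS inE touch clus closeS Side T Mouth Fence dom pb grid)
open Pool.Agent.H38.N59 (vE rv fillS Src Sep FX FY det Seal Four)
open Pool.Agent.H26.ST (Cor glu PerInv sh TD Rel1 In)
open Pool.Agent.H92.SN (WindS tSites)

/-- The source `s` consists of the site `0` and two of its neighbours. -/
structure IsSrc (s : Src) : Prop where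
  x : ∃ e, Joins e s.x (0, 0)
  y : ∃ e, Joins e (0, 0) s.y
  V : s.V0 = {0}

/-- The sites of the corridor: those of the strip left of the translated west target, and those of
the west target. -/
def CC (N k : ℕ) : Set Vert := {v | (v ∈ Cor N k ∧ v.1 < N - 36 * k) ∨ v ∈ T .W k}

/-- The corridor is crossed. -/
def NpT (N k : ℕ) : Set Config :=
  {η | HCross (sit (glu N k η)) (28 * k) (N - 28 * k) (-(3 * k)) (3 * k)}

/-- A vertical strip off the corridor is not crossed. -/
def NoX (N k : ℕ) : Set Config :=
  {η | ¬ HCross (sit η) (40 * k) (50 * k) (3 * k + 1) (N - 3 * k - 1)}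

/-- Seals and a closed vertical strip. -/
def HT (N k ρ K : ℕ) (S : Set Vert) : Set Config :=
  Seal (grid ρ K) ρ (det (modE N) .W .E k (CC N k) S) ∩ NoX N k

theorem perInv_sit {N : ℕ} {w : Config} (h : PerInv N w) : PerInv N (sit w) := by
  intro z e
  have h1 : (fun f => w (shiftE (z.1 * N, z.2 * N) f)) = w := by
    funext f
    exact h z f
  have h2 := congrFun (Pool.Agent.H92.SN.sit_shiftE (z.1 * N, z.2 * N) w) e
  rw [h1] at h2
  exact h2.symm

theorem per_sv_sh {N : ℕ} {w : Config} (h : PerInv N w) (z : ℤ × ℤ) (v : Vert) :
    w (sv (sh N z v)) = w (sv v) := by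
  have h1 := Pool.Agent.H26.ST.per_sh h z (sv v)
  have h2 : shiftE (-(z.1 * N), -(z.2 * N)) (sv v) = sv (sh N z v) := by
    simp only [shiftE, sv, sh, Prod.mk.injEq]
    exact ⟨by ring, by ring, trivial⟩
  rw [h2] at h1
  exact h1

end Pool.Agent.H83.PST
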