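import Pool.Agent.H83.SK.PST.Defs
import Pool.Agent.H26.ST.Open

/-!
# With the source open there is a winding path
-/

set_option autoImplicit false

open MeasureTheory ProbabilityTheory unitInterval

namespace Pool.Agent.H83.PST

open Pool.Agent.H89.Perc
open Pool.Agent.H61.NC (modE)
open Pool.Agent.H83.SK (sv sit sit_true RSWreg)
open Pool.Agent.H59.EX (LocS inE touch clus closeS Side T Mouth Fence dom pb grid)
open Pool.Agent.H38.N59 (vE rv fillS Src Sep FX FY det Seal Four)
open Pool.Agent.H26.ST (Cor glu PerInv sh TD Rel1 In)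
open Pool.Agent.H92.SN (WindS tSites)

private theorem conn_x {N : ℕ} {ζ : Config} (hp : PerInv N ζ) {S S' : Set Vert}
    (hS : ∀ w ∈ S, ((w.1 + N, w.2) : Vert) ∈ S') {u v : Vert} (h : Conn ζ S u v) :
    Conn ζ S' (u.1 + N, u.2) (v.1 + N, v.2) := by
  refine h.map (fun w => (w.1 + N, w.2)) hS ?_
  intro e a b hj ho
  refine ⟨shiftE ((N : ℤ), 0) e, ?_, ?_⟩
  · have := joins_shift ((N : ℤ), 0) hj
    simpa using this
  · have := hp (1, 0) e
    rw [one_mul, zero_mul] at this
    rw [this]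
    exact ho

/-- The path `x - 0 - y - T E - corridor - T W + (N, 0) - x + (N, 0)`. -/
theorem open_wind {N k : ℕ} {s : Src} (hs : IsSrc s) (hk : 64 ≤ k)
    (hN : 128 * k ≤ N) {ω : Config} (h1 : per N ω ∈ Sep s .W .E k)
    (h2 : per N ω ∈ NpT N k) : Function.update ω (sv 0) true ∈ WindS N := by
  obtain ⟨ω', hω'⟩ : ∃ ω' : Config, ω' = Function.update ω (sv 0) true := ⟨_, rfl⟩
  rw [← hω']
  have hk' : (64 : ℤ) ≤ k := by exact_mod_cast hk
  have hN' : 128 * (k : ℤ) ≤ N := by exact_mod_cast hN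
  have hle0 : ∀ e, ω e = true → ω' e = true := by
    intro e he
    rw [hω', Function.update_apply]
    split_ifs
    · rfl
    · exact he
  have hle : ∀ e, per N ω e = true → per N ω' e = true := fun e he => hle0 _ he
  have hcut0 : ∀ e, s.cut (per N ω) e = true → per N ω' e = true := fun e he =>
    hle e (Pool.Agent.H38.N59.cut_le he)
  have hcut := Pool.Agent.H83.SK.sit_mono hcut0
  have hsle := Pool.Agent.H83.SK.sit_mono hle
  have hper : PerInv N (sit (per N ω')) := perInv_sit (Pool.Agent.H26.ST.perInv_per N ω')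
  obtain ⟨⟨uW, vW, pW, qW, cW, dW⟩, ⟨uE, vE, pE, qE, cE, dE⟩, -⟩ := h1
  obtain ⟨u, v, p, q, c⟩ :
    HCross (sit (glu N k (per N ω))) (28 * k) (N - 28 * k) (-(3 * k)) (3 * k) := h2
  rw [Pool.Agent.H26.ST.glu_per] at c
  have c1 := c.mono le_rfl hsle
  have cE1 : Conn (sit (per N ω')) (rect (28 * k) (36 * k) (-(3 * k)) (3 * k)) uE vE :=
    Conn.mono le_rfl hcut cE
  have cW1 : Conn (sit (per N ω')) (rect (-(36 * k)) (-(28 * k)) (-(3 * k)) (3 * k)) uW vW :=
    Conn.mono le_rfl hcut cW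
  have cW2 := conn_x hper (S' := rect (N - 36 * k) (N - 28 * k) (-(3 * k)) (3 * k)) (fun w hw => by
    simp only [rect, Set.mem_ofPred_eq] at hw ⊢
    omega) cW1
  obtain ⟨z1, a1, b1⟩ := Pool.Agent.H85.Strict.hv_meet c1 (by omega) (by omega) cE1 (by omega)
    (by omega) (by omega) (by omega)
  obtain ⟨z2, a2, b2⟩ := Pool.Agent.H85.Strict.hv_meet c1 (by omega) (by omega) cW2
    (by simp only; omega) (by simp only; omega) (by omega) (by omega)
  have sub : ∀ S : Set Vert, S ⊆ Set.univ := fun S => Set.subset_univ S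
  have huW := cW1.mem_left
  have huE := cE1.mem_left
  simp only [rect, Set.mem_ofPred_eq] at huW huE
  have hx2 := s.hx
  have hy2 := s.hy
  simp only [mem_ball, Prod.fst_zero, Prod.snd_zero, Nat.cast_ofNat] at hx2 hy2
  have hox : per N ω' (sv s.x) = true := by
    refine hcut0 _ (Pool.Agent.H38.N59.open_of_conn dW ?_)
    intro h
    rw [h] at hx2
    omega
  have hoy : per N ω' (sv s.y) = true := by
    refine hcut0 _ (Pool.Agent.H38.N59.open_of_conn dE ?_)
    intro h
    rw [h] at hy2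
    omega
  have ho0 : per N ω' (sv (0, 0)) = true := by
    simp only [per, sv, Int.zero_emod]
    rw [hω']
    exact Function.update_self (f := ω) (sv 0) true
  -- the source
  have hxy : Conn (sit (per N ω')) Set.univ s.x s.y := by
    obtain ⟨e, he⟩ := hs.x
    obtain ⟨e', he'⟩ := hs.y
    have t1 : Step (sit (per N ω')) Set.univ s.x (0, 0) := ⟨trivial, trivial, e, he,
      (Pool.Agent.H38.N59.sit_joins he).2 ⟨hox, ho0⟩⟩
    have t2 : Step (sit (per N ω')) Set.univ (0, 0) s.y := ⟨trivial, trivial, e', he',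
      (Pool.Agent.H38.N59.sit_joins he').2 ⟨ho0, hoy⟩⟩
    exact t1.conn.trans t2.conn
  have k1 : Conn (sit (per N ω')) Set.univ s.y uE := Conn.mono (sub _) hcut dE
  have k2 : Conn (sit (per N ω')) Set.univ uE (uW.1 + N, uW.2) :=
    (((b1.mono_set (sub _)).trans (a1.mono_set (sub _)).symm).trans
      (a2.mono_set (sub _))).trans (b2.mono_set (sub _)).symm
  have k3 : Conn (sit (per N ω')) Set.univ s.x uW := Conn.mono (sub _) hcut dW
  have k4 := conn_x hper (S' := Set.univ) (fun _ _ => trivial) k3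
  refine ⟨s.x, 1, 0, one_ne_zero, ?_⟩
  have e1 : ((s.x.1 + 1 * (N : ℤ), s.x.2 + 0 * (N : ℤ)) : Vert) = (s.x.1 + N, s.x.2) := by
    rw [one_mul, zero_mul, add_zero]
  rw [e1]
  exact ((hxy.trans k1).trans k2).trans k4.symm

end Pool.Agent.H83.PST
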