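import Pool.Agent.H83.SK.PST.Defs
import Pool.Agent.H83.SK.P29.Rect
import Pool.Agent.H26.ST.Open
import Pool.Agent.H59.EX.SealProb

/-!
# Probabilities of the corridor event and of the seals; locality
-/

set_option autoImplicit false

open MeasureTheory ProbabilityTheory unitInterval

namespace Pool.Agent.H83.PST

open Pool.Agent.H89.Perc
open Pool.Agent.H61.NC (modE)
open Pool.Agent.H83.SK (sv sit sit_true RSWreg)
open Pool.Agent.H59.EX (LocS inE touch clus closeS Side T Mouth Fence dom pb grid)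
open Pool.Agent.H38.N59 (vE rv fillS Src Sep FX FY det Seal Four vE_mono sv_mem_vE)
open Pool.Agent.H26.ST (Cor glu PerInv sh TD Rel1 In glu_per)
open Pool.Agent.H92.SN (WindS tSites)

private lemma mod_eq' {N : ℕ} {x y : ℤ} (h1 : x - y < N) (h2 : y - x < N)
    (h : x % N = y % N) : x = y := by
  have hd : (N : ℤ) ∣ x - y := Int.ModEq.dvd (Int.ModEq.symm h)
  have : x - y = 0 := by
    apply Int.eq_zero_of_abs_lt_dvd hd
    rw [abs_lt]
    omega
  omega

private lemma hcross_congr {w w' : Config} {a b c d : ℤ}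
    (h : ∀ g ∈ vE (rect a b c d), w g = true → w' g = true) (hc : HCross (sit w) a b c d) :
    HCross (sit w') a b c d := by
  obtain ⟨u, v, hu, hv, hc⟩ := hc
  refine ⟨u, v, hu, hv, hc.1, Relation.ReflTransGen.mono ?_ _ _ hc.2⟩
  rintro x y ⟨hx, hy, e, hj, ho⟩
  rw [Pool.Agent.H38.N59.sit_joins hj] at ho
  exact ⟨hx, hy, e, hj, (Pool.Agent.H38.N59.sit_joins hj).2
    ⟨h _ (sv_mem_vE.2 hx) ho.1, h _ (sv_mem_vE.2 hy) ho.2⟩⟩

private lemma mem_dom {k : ℕ} {v : Vert} (h : v ∈ dom .W .E k) :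
    -(36 * (k : ℤ)) ≤ v.1 ∧ v.1 ≤ 36 * k ∧ -(32 * (k : ℤ)) ≤ v.2 ∧ v.2 ≤ 32 * k ∧
      (32 * (k : ℤ) < |v.1| → -(3 * (k : ℤ)) ≤ v.2 ∧ v.2 ≤ 3 * k) := by
  simp only [dom, T, ball, rect, Set.mem_union, Set.mem_ofPred_eq, Prod.fst_zero,
    Prod.snd_zero] at h
  push_cast at h
  rcases abs_cases v.1 with h1 | h1 <;> omega

private lemma CC_bounds {N k : ℕ} (hk : 64 ≤ k) (hN : 128 * k ≤ N) {v : Vert} (he : v ∈ CC N k) :
    -(36 * (k : ℤ)) ≤ v.1 ∧ v.1 < N - 36 * k ∧ -(3 * (k : ℤ)) ≤ v.2 ∧ v.2 ≤ 3 * k := by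
  have hN' : 128 * (k : ℤ) ≤ N := by exact_mod_cast hN
  rcases he with ⟨h1, h2⟩ | h1
  · simp only [Cor, rect, Set.mem_ofPred_eq] at h1
    omega
  · simp only [T, rect, Set.mem_ofPred_eq] at h1
    omega

theorem injOn_modE {N k : ℕ} (hk : 64 ≤ k) (hN : 128 * k ≤ N) :
    Set.InjOn (modE N) (vE (dom .W .E k ∪ CC N k)) := by
  have hN' : 128 * (k : ℤ) ≤ N := by exact_mod_cast hN
  have hk' : 64 ≤ (k : ℤ) := by exact_mod_cast hk
  have key : ∀ v ∈ dom .W .E k ∪ CC N k, -(36 * (k : ℤ)) ≤ v.1 ∧ v.1 < N - 36 * k ∧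
      -(32 * (k : ℤ)) ≤ v.2 ∧ v.2 ≤ 32 * k := by
    rintro v (he | he)
    · have := mem_dom he
      omega
    · have := CC_bounds hk hN he
      omega
  rintro ⟨x, y, t⟩ h1 ⟨x', y', t'⟩ h2 h
  have k1 := key _ h1.2
  have k2 := key _ h2.2
  simp only [src] at k1 k2
  simp only [modE, Prod.mk.injEq] at h
  obtain ⟨h3, h4, h5⟩ := h
  rw [mod_eq' (by omega) (by omega) h3, mod_eq' (by omega) (by omega) h4, h5]

theorem CC_inter {N k : ℕ} (hk : 64 ≤ k) (hN : 128 * k ≤ N) :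
    CC N k ∩ dom .W .E k ⊆ T .W k ∪ T .E k := by
  have hN' : 128 * (k : ℤ) ≤ N := by exact_mod_cast hN
  rintro v ⟨⟨h1, -⟩ | h1, h2⟩
  · have h3 := mem_dom h2
    right
    simp only [Cor, rect, Set.mem_ofPred_eq] at h1
    simp only [T, rect, Set.mem_ofPred_eq]
    omega
  · exact Or.inl h1

theorem T_sub_CC {N k : ℕ} (hk : 64 ≤ k) (hN : 128 * k ≤ N) : T .W k ∪ T .E k ⊆ CC N k := by
  have hN' : 128 * (k : ℤ) ≤ N := by exact_mod_cast hN
  have hk' : 64 ≤ (k : ℤ) := by exact_mod_cast hk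
  rintro v (h | h)
  · exact Or.inr h
  · simp only [T, rect, Set.mem_ofPred_eq] at h
    left
    simp only [Cor, rect, Set.mem_ofPred_eq]
    omega

private theorem rect_finite (a b c d : ℤ) : (rect a b c d).Finite := by
  refine Set.Finite.subset ((Set.finite_Icc a b).prod (Set.finite_Icc c d)) ?_
  rintro ⟨x, y⟩ ⟨h1, h2, h3, h4⟩
  exact ⟨⟨h1, h2⟩, ⟨h3, h4⟩⟩

theorem CC_finite (N k : ℕ) : (CC N k).Finite := by
  refine ((rect_finite (28 * k) (N - 28 * k) (-(3 * k)) (3 * k)).union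
    (rect_finite (-(36 * k)) (-(28 * k)) (-(3 * k)) (3 * k))).subset ?_
  rintro e (h | h)
  · exact Or.inl h.1
  · exact Or.inr h

private lemma glu_congr {N k : ℕ} (hN : 128 * k ≤ N) {η η' : Config}
    (h : ∀ e ∈ vE (CC N k), η e = η' e) :
    ∀ e ∈ vE (rect (28 * k) (N - 28 * k) (-(3 * k)) (3 * k)), glu N k η e = glu N k η' e := by
  have hN' : 128 * (k : ℤ) ≤ N := by exact_mod_cast hN
  rintro ⟨x, y, t⟩ he
  unfold glu
  by_cases hx : x < N - 36 * k
  · simp only [hx, if_true]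
    exact h _ ⟨he.1, Or.inl ⟨he.2, hx⟩⟩
  · simp only [hx, if_false]
    refine h _ ⟨he.1, Or.inr ?_⟩
    have h2 := he.2
    simp only [src, rect, Set.mem_ofPred_eq] at h2
    simp only [src, T, rect, Set.mem_ofPred_eq]
    omega

theorem locS_NpT {N k : ℕ} (hN : 128 * k ≤ N) : LocS (vE (CC N k)) (NpT N k) := by
  intro η η' h hη
  refine hcross_congr (fun e he ho => ?_) hη
  rw [← glu_congr hN h e he]
  exact ho

theorem incr_NpT (N k : ℕ) : Incr (NpT N k) := by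
  intro η η' h hη
  refine hcross_congr (fun e _ ho => ?_) hη
  unfold glu at ho ⊢
  split_ifs at ho ⊢
  · exact h _ ho
  · exact h _ ho

private lemma locS_NoX (N k : ℕ) :
    LocS (vE (rect (40 * k) (50 * k) (3 * k + 1) (N - 3 * k - 1))) (NoX N k) := by
  intro η η' h hη hη'
  refine hη (hcross_congr (fun e he ho => ?_) hη')
  rw [h e he]
  exact ho

/-- `NoX` does not see the corridor nor the clusters. -/
theorem locS_HT {N k ρ K : ℕ} (hk : 64 ≤ k) (hN : 128 * k ≤ N) (S : Set Vert) :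
    LocS (det (modE N) .W .E k (CC N k) S)ᶜ (HT N k ρ K S) := by
  have hN' : 128 * (k : ℤ) ≤ N := by exact_mod_cast hN
  have hk' : 64 ≤ (k : ℤ) := by exact_mod_cast hk
  intro η η' h hη
  refine ⟨Pool.Agent.H38.N59.locS_seal _ _ _ η η' h hη.1,
    locS_NoX N k η η' (fun e he => h e ?_) hη.2⟩
  rintro ⟨e', he', heq⟩
  have h0 := he.2
  obtain ⟨x, y, t⟩ := e
  obtain ⟨x', y', t'⟩ := e'
  simp only [modE, Prod.mk.injEq] at heq
  obtain ⟨h3, h4, h5⟩ := heq
  simp only [src, rect, Set.mem_ofPred_eq] at h0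
  rcases he' with he' | he'
  · have h6 := mem_dom (Pool.Agent.H38.N59.rv_sub he').2
    simp only [src] at h6
    have := mod_eq' (by omega) (by omega) h3
    omega
  · have h6 := CC_bounds hk hN he'.2
    simp only [src] at h6
    have := mod_eq' (by omega) (by omega) h4
    omega

/-- The sites of a rectangle. -/
noncomputable def sR (a b c d : ℤ) : Finset Edge := by
  classical exact (eRect a b c d).filter (fun e => e.2.2 = false)

theorem mem_sR {a b c d : ℤ} {e : Edge} : e ∈ sR a b c d ↔ e ∈ vE (rect a b c d) := by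
  classical
  simp only [sR, Finset.mem_filter, mem_eRect]
  exact and_comm

private lemma localOn_NoX (N k : ℕ) :
    LocalOn (sR (40 * k) (50 * k) (3 * k + 1) (N - 3 * k - 1)) (NoX N k) := by
  intro η η' h hη
  exact locS_NoX N k η η' (fun e he => h e (mem_sR.2 he)) hη

theorem localOn_HT (N k ρ K : ℕ) : ∃ Λ : Finset Edge, ∀ S, LocalOn Λ (HT N k ρ K S) := by
  classical
  obtain ⟨Λ, hΛ⟩ := Pool.Agent.H38.N59.localOn_seal (grid ρ K) ρ
  refine ⟨Λ ∪ sR (40 * k) (50 * k) (3 * k + 1) (N - 3 * k - 1), fun S η η' h hη => ?_⟩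
  exact ⟨hΛ _ η η' (fun e he => h e (Finset.mem_union_left _ he)) hη.1,
    localOn_NoX N k η η' (fun e he => h e (Finset.mem_union_right _ he)) hη.2⟩

theorem modE_injOn_vE {N : ℕ} {a b c d : ℤ} (hab : b - a < N) (hcd : d - c < N) :
    Set.InjOn (modE N) (vE (rect a b c d)) := by
  rintro ⟨x, y, t⟩ h1 ⟨x', y', t'⟩ h2 h
  have k1 := h1.2
  have k2 := h2.2
  simp only [src, rect, Set.mem_ofPred_eq] at k1 k2
  simp only [modE, Prod.mk.injEq] at h
  obtain ⟨h3, h4, h5⟩ := h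
  rw [mod_eq' (by omega) (by omega) h3, mod_eq' (by omega) (by omega) h4, h5]

/-- Probabilities of local events of the sites of a rectangle on the torus. -/
theorem Pr_pb {N : ℕ} {q : I} {a b c d : ℤ} {A : Set Config} (hA : LocalOn (sR a b c d) A)
    (hab : b - a < N) (hcd : d - c < N) : Pr q {ω | pb (modE N) ω ∈ A} = Pr q A := by
  refine Pr_comp hA ?_
  intro e he e' he' h
  exact modE_injOn_vE hab hcd (mem_sR.1 (Finset.mem_coe.1 he)) (mem_sR.1 (Finset.mem_coe.1 he')) h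

private lemma localOn_cross (a b c d : ℤ) : LocalOn (sR a b c d) {w | HCross (sit w) a b c d} := by
  intro w w' h hw
  refine hcross_congr (fun g hg ho => ?_) hw
  rw [← h g (mem_sR.2 hg)]
  exact ho

theorem NpT_lower (c : ℝ) (hc : 0 < c) (K₁ : ℕ) : ∃ c' : ℝ, 0 < c' ∧ ∀ (N k : ℕ) (q : I),
    64 ≤ k → 128 * k ≤ N → N ≤ K₁ * k → RSWreg c N q →
      c' ≤ Pr q {ω | pb (modE N) ω ∈ NpT N k} := by
  obtain ⟨c', hc', H⟩ := Pool.Agent.H83.SK.rect_lower c hc K₁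
  refine ⟨c', hc', fun N k q hk hN hK hR => ?_⟩
  have hN' : 128 * (k : ℤ) ≤ N := by exact_mod_cast hN
  have hk' : 64 ≤ (k : ℤ) := by exact_mod_cast hk
  have hK' : (N : ℤ) ≤ K₁ * k := by exact_mod_cast hK
  have hK1 : (1 : ℤ) ≤ K₁ := by
    rcases Nat.eq_zero_or_pos K₁ with h | h
    · rw [h] at hK
      omega
    · exact_mod_cast h
  have h1 : c' ≤ Pr q {w | HCross (sit w) (28 * k) (N - 28 * k) (-(3 * k)) (3 * k)} :=
    (H N q (by omega) hR (28 * k) (N - 28 * k) (-(3 * k)) (3 * k) (by omega) (by omega)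
    (by nlinarith) (by nlinarith)).1
  refine h1.trans ?_
  rw [← Pr_pb (N := N) (localOn_cross (28 * (k : ℤ)) (N - 28 * k) (-(3 * k)) (3 * k))
    (by omega) (by omega)]
  refine Pr_mono fun ω hω => ?_
  show HCross (sit (glu N k (per N ω))) _ _ _ _
  rw [glu_per]
  exact hω

private lemma incr_NoX_compl (N k : ℕ) : Incr ({ω | pb (modE N) ω ∈ NoX N k} : Set Config)ᶜ := by
  intro ω ω' h hω hω'
  have h1 : HCross (sit (pb (modE N) ω)) (40 * k) (50 * k) (3 * k + 1) (N - 3 * k - 1) := by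
    by_contra hcon
    exact hω hcon
  exact hω' (hcross_congr (fun e _ ho => h _ ho) h1)

private lemma incr_Seal_compl (N ρ : ℕ) (G : Finset Vert) (t : Set Edge) :
    Incr ({ω | pb (modE N) ω ∈ Seal G ρ t} : Set Config)ᶜ := by
  intro ω ω' h hω hω'
  exact Pool.Agent.H38.N59.seal_decr G ρ t _ _ (fun e he => h (modE N e) he) hω hω'

theorem HT_lower (c : ℝ) (hc : 0 < c) (K₁ K : ℕ) : ∃ c' : ℝ, 0 < c' ∧ ∀ (N k ρ : ℕ) (q : I)
    (S : Set Vert), 64 ≤ k → 128 * k ≤ N → N ≤ K₁ * k → 1 ≤ ρ → 8 * ρ ≤ k → RSWreg c N q →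
      c' ≤ Pr q {ω | pb (modE N) ω ∈ HT N k ρ K S} := by
  classical
  obtain ⟨c₁, hc₁, H1⟩ := Pool.Agent.H83.SK.rect_closed c hc K₁
  obtain ⟨c₂, hc₂, H2⟩ := Pool.Agent.H38.N59.seal_lower_pb c hc 1 ((2 * K + 1) ^ 2)
  refine ⟨c₂ * c₁, by positivity, fun N k ρ q S hk hN hK hρ hρk hR => ?_⟩
  have hN' : 128 * (k : ℤ) ≤ N := by exact_mod_cast hN
  have hk' : 64 ≤ (k : ℤ) := by exact_mod_cast hk
  have hK' : (N : ℤ) ≤ K₁ * k := by exact_mod_cast hK
  have hρk' : 8 * (ρ : ℤ) ≤ k := by exact_mod_cast hρk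
  have hK1 : (1 : ℤ) ≤ K₁ := by
    rcases Nat.eq_zero_or_pos K₁ with h | h
    · rw [h] at hK
      omega
    · exact_mod_cast h
  have hseal := H2 N ρ q (grid ρ K) (det (modE N) .W .E k (CC N k) S) (modE N) (by omega) hR hρ
    (by omega) (Pool.Agent.H59.EX.card_grid ρ K) (by
      intro g _
      exact modE_injOn_vE (N := N) (a := g.1 - (3 * ρ : ℕ)) (b := g.1 + (3 * ρ : ℕ))
        (c := g.2 - (3 * ρ : ℕ)) (d := g.2 + (3 * ρ : ℕ)) (by push_cast; omega)
        (by push_cast; omega))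
  have hnox : c₁ ≤ Pr q {ω | pb (modE N) ω ∈ NoX N k} := by
    have h1 : c₁ ≤ Pr q {w | ¬ HCross (sit w) (40 * k) (50 * k) (3 * k + 1) (N - 3 * k - 1)} :=
      (H1 N q (by omega) hR (3 * k + 1) (N - 3 * k - 1) (40 * k) (50 * k) (by omega) (by omega)
        (by nlinarith) (by nlinarith)).2
    rw [Pr_pb (N := N) (localOn_NoX N k) (by omega) (by omega)]
    exact h1
  obtain ⟨Λ, hΛ⟩ := Pool.Agent.H38.N59.localOn_seal (grid ρ K) ρ
  have hl1 : LocalOn (Λ.image (modE N)) {ω | pb (modE N) ω ∈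
      Seal (grid ρ K) ρ (det (modE N) .W .E k (CC N k) S)} := by
    intro ω ω' h hω
    exact hΛ _ _ _ (fun e he => h _ (Finset.mem_image_of_mem _ he)) hω
  have hl2 : LocalOn ((sR (40 * k) (50 * k) (3 * k + 1) (N - 3 * k - 1)).image (modE N))
      {ω | pb (modE N) ω ∈ NoX N k} := by
    intro ω ω' h hω
    exact localOn_NoX N k _ _ (fun e he => h _ (Finset.mem_image_of_mem _ he)) hω
  have hfkg := fkg_decr (p := q) hl1 hl2 (incr_Seal_compl N ρ _ _) (incr_NoX_compl N k)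
  refine ((mul_le_mul hseal hnox hc₁.le Pr_nonneg).trans hfkg).trans (Pr_mono ?_)
  intro ω hω
  exact ⟨hω.1, hω.2⟩

end Pool.Agent.H83.PST
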